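import Mathlib
import Pool.Agent.H984R3.ConvDefs
import Pool.Agent.H984R3.LDim
import Pool.Agent.H984R3.Burl2

namespace Pool.Agent.Results.MP_d1e448_co.LocalDim

open Pool.Agent.H984R3.ConvDefs Pool.Agent.H984R3.Geom Pool.Agent.H984R3.Burl

/-- lower and upper faces of a box in a given coordinate -/
def lo (b : Box) (a : Fin 3) : ℚ := ![b.x0, b.y0, b.z0] a
def hi (b : Box) (a : Fin 3) : ℚ := ![b.x1, b.y1, b.z1] a

theorem lo_le_hi {b : Box} (h : b.Unit) (a : Fin 3) : lo b a ≤ hi b a := by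
  obtain ⟨_, h1, _, _, h2, _, _, h3, _⟩ := h
  fin_cases a
  · exact h1
  · exact h2
  · exact h3

/-- The ordered data of a finite family of boxes. -/
def data {W : Type} {n : ℕ} (e : W ≃ Fin n) (b : W → Box) (hb : ∀ w, (b w).Unit) :
    Data W (ℚ ×ₗ Fin n) where
  key := fun a w => toLex (hi (b w) a, e w)
  inj := by
    intro a v w h
    have := congrArg (fun z => (ofLex z).2) h
    exact e.injective this
  ll := fun a v w => hi (b v) a < lo (b w) a
  ll_down := by
    intro a u v w huv h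
    rw [Prod.Lex.toLex_le_toLex] at huv
    rcases huv with h' | h'
    · exact h'.trans h
    · have h1 : hi (b u) a = hi (b v) a := h'.1
      rw [h1]
      exact h
  ll_lt := by
    intro a v w h
    rw [Prod.Lex.toLex_lt_toLex]
    exact Or.inl (lt_of_lt_of_le h (lo_le_hi (hb w) a))

theorem adj_iff {W : Type} {n : ℕ} (e : W ≃ Fin n) (b : W → Box) (hb : ∀ w, (b w).Unit)
    (v w : W) : (data e b hb).Adj v w ↔ v ≠ w ∧ (b v).Meets (b w) := by
  unfold Data.Adj
  simp only [data, not_lt]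
  refine and_congr_right fun _ => ?_
  constructor
  · intro h
    have h0 := h 0
    have h1 := h 1
    have h2 := h 2
    exact ⟨h0.2, h0.1, h1.2, h1.1, h2.2, h2.1⟩
  · rintro ⟨m1, m2, m3, m4, m5, m6⟩ a
    fin_cases a
    · exact ⟨m2, m1⟩
    · exact ⟨m4, m3⟩
    · exact ⟨m6, m5⟩

/-- There are convex geometries of local dimension at most `8` and arbitrarily large dimension. -/
theorem result : ∀ k : ℕ, ∃ (X : Type) (_ : Finite X) (C : Set (Set X)),
    IsConvexGeometry C ∧ LocalDimLE C 8 ∧ ¬ DimLE C k := by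
  intro k
  obtain ⟨W, hW, b, hb, htri, hcol⟩ := exists_boxes k
  have := Fintype.ofFinite W
  classical
  let D := data (Fintype.equivFin W) b hb
  refine ⟨W ⊕ (Fin 3 × W), inferInstance, D.closed, closed_geometry D, ?_, ?_⟩
  · refine localDimLE D ?_
    intro u v w h1 h2 h3
    rw [adj_iff] at h1 h2 h3
    exact htri u v w h1.1 h2.1 h3.1 h1.2 h2.2 h3.2
  · refine not_dimLE D ?_
    intro c
    obtain ⟨v, w, hvw, hm, hc⟩ := hcol c
    exact ⟨v, w, (adj_iff _ b hb v w).2 ⟨hvw, hm⟩, hc⟩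

end Pool.Agent.Results.MP_d1e448_co.LocalDim
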